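import Pool.Agent.Helper75.PM.Stm

/-! Project PM: packages JN and GR. -/

set_option autoImplicit false

open Complex Filter Topology MeasureTheory

namespace Pool.Agent.Helper83.PM

open Pool.Agent.Helper75.PM

/-! ### JN -/

lemma posLog_le (y : ℝ) (hy : 0 ≤ y) : Real.posLog y ≤ 1 / 2 * Real.log (1 + y ^ 2) := by
  unfold Real.posLog
  refine max_le ?_ ?_
  · have : 0 ≤ Real.log (1 + y ^ 2) := Real.log_nonneg (by nlinarith [sq_nonneg y])
    linarith
  · rcases hy.eq_or_lt with h | h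
    · rw [← h]; simp
    · have h1 : Real.log (y ^ 2) ≤ Real.log (1 + y ^ 2) :=
        Real.log_le_log (by positivity) (by linarith)
      rw [Real.log_pow] at h1
      push_cast at h1
      linarith

lemma log_tangent {g c : ℝ} (hg : 0 < g) (hc : 0 < c) : Real.log g ≤ Real.log c + g / c - 1 := by
  have h := Real.log_le_sub_one_of_pos (div_pos hg hc)
  rw [Real.log_div hg.ne' hc.ne'] at h
  linarith

theorem jen : S_jen := by
  intro A B e h hAB he hc hh
  have hBA : 0 < B - A := by linarith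
  set J := ∫ x in A..B, h x ^ 2 with hJ
  have hJ0 : 0 ≤ J := intervalIntegral.integral_nonneg hAB.le fun x _ => sq_nonneg _
  set c := 1 + J / (e ^ 2 * (B - A)) with hcdef
  have hc0 : 0 < c := by positivity
  have hi1 : IntervalIntegrable (fun x => Real.posLog (h x / e)) volume A B :=
    (Real.continuous_posLog.comp (hc.div_const e)).intervalIntegrable _ _
  have hi2 : IntervalIntegrable
      (fun x => 1 / 2 * (Real.log c + (1 + (h x / e) ^ 2) / c - 1)) volume A B := by
    refine Continuous.intervalIntegrable ?_ _ _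
    fun_prop
  have h1 : ∫ x in A..B, Real.posLog (h x / e) ≤
      ∫ x in A..B, 1 / 2 * (Real.log c + (1 + (h x / e) ^ 2) / c - 1) := by
    refine intervalIntegral.integral_mono_on hAB.le hi1 hi2 fun x _ => ?_
    refine (posLog_le _ (div_nonneg (hh x) he.le)).trans ?_
    have := log_tangent (g := 1 + (h x / e) ^ 2) (by positivity) hc0
    linarith
  have h2 : ∫ x in A..B, 1 / 2 * (Real.log c + (1 + (h x / e) ^ 2) / c - 1) =
      (B - A) / 2 * Real.log c := by
    have e1 : (fun x => 1 / 2 * (Real.log c + (1 + (h x / e) ^ 2) / c - 1)) =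
        fun x => 1 / 2 * (Real.log c + 1 / c - 1) + 1 / (2 * c * e ^ 2) * h x ^ 2 := by
      funext x
      field_simp
      ring
    rw [e1, intervalIntegral.integral_add (by simp)
      ((Continuous.intervalIntegrable (by fun_prop) _ _)),
      intervalIntegral.integral_const_mul, intervalIntegral.integral_const,
      intervalIntegral.integral_const_mul, ← hJ, smul_eq_mul]
    have e2 : J = (c - 1) * (e ^ 2 * (B - A)) := by
      rw [hcdef]; field_simp; ring
    rw [e2]
    field_simp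
    ring
  rw [h2] at h1
  exact h1

/-! ### GR -/

lemma log_ratio {x y : ℝ} (hx : 0 < x) (hy : 0 < y) : (x - y) / x ≤ Real.log (x / y) := by
  have h := Real.log_le_sub_one_of_pos (div_pos hy hx)
  rw [Real.log_div hy.ne' hx.ne'] at h
  rw [Real.log_div hx.ne' hy.ne', sub_div, div_self hx.ne']
  linarith

lemma normsq_form (p q : ℝ) : ‖(p : ℂ) + (q : ℂ) * I‖ ^ 2 = p ^ 2 + q ^ 2 := by
  rw [← Complex.normSq_eq_norm_sq, Complex.normSq_add_mul_I]

theorem gr : S_gr := by
  intro a κ ha hκ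
  have ha0 : 0 < a := by linarith
  -- choice of `H`
  obtain ⟨H, hH, hH2⟩ : ∃ H : ℝ, 0 < H ∧
      Real.pi / 2 - κ * (a + 1 / 2) / (4 * a) ≤ Real.arctan (H / (a + 1 / 2)) := by
    have h1 : Tendsto (fun H : ℝ => Real.arctan (H / (a + 1 / 2))) atTop (𝓝 (Real.pi / 2)) :=
      (Real.tendsto_arctan_atTop.mono_right nhdsWithin_le_nhds).comp
        (tendsto_id.atTop_div_const (by positivity))
    have h2 : ∀ᶠ H : ℝ in atTop, Real.pi / 2 - κ * (a + 1 / 2) / (4 * a) <
        Real.arctan (H / (a + 1 / 2)) :=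
      h1.eventually_const_lt (by
        have : 0 < κ * (a + 1 / 2) / (4 * a) := by positivity
        linarith)
    obtain ⟨H, h3, h4⟩ := (h2.and (eventually_gt_atTop 0)).exists
    exact ⟨H, h4, h3.le⟩
  refine ⟨H, hH, fun ρ A B hρ1 hρ2 hA hB => ?_⟩
  set b := ρ.re - 1 / 2 with hb
  have hb0 : 0 < b := by linarith
  have hb1 : b ≤ 1 / 2 := by linarith
  have hab : 0 < a - b := by linarith
  have e1 : ∀ t : ℝ, (1 / 2 + a + t * I - (1 - starRingEnd ℂ ρ) : ℂ) =
      ((a + b : ℝ) : ℂ) + ((t - ρ.im : ℝ) : ℂ) * I := by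
    intro t
    apply Complex.ext <;> simp [hb] <;> ring
  have e2 : ∀ t : ℝ, (1 / 2 + a + t * I - ρ : ℂ) =
      ((a - b : ℝ) : ℂ) + ((t - ρ.im : ℝ) : ℂ) * I := by
    intro t
    apply Complex.ext <;> simp [hb] <;> ring
  have hn1 : ∀ t : ℝ, 0 < ‖(1 / 2 + a + t * I - (1 - starRingEnd ℂ ρ) : ℂ)‖ := by
    intro t
    rw [e1, norm_pos_iff]
    intro h0
    have := congrArg Complex.re h0
    simp at this
    linarith
  have hn2 : ∀ t : ℝ, 0 < ‖(1 / 2 + a + t * I - ρ : ℂ)‖ := by
    intro t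
    rw [e2, norm_pos_iff]
    intro h0
    have := congrArg Complex.re h0
    simp at this
    linarith
  have hcont : Continuous (fun t : ℝ => Real.log (‖(1 / 2 + a + t * I - (1 - starRingEnd ℂ ρ) : ℂ)‖ /
      ‖(1 / 2 + a + t * I - ρ : ℂ)‖)) := by
    refine Continuous.log ?_ fun t => (div_pos (hn1 t) (hn2 t)).ne'
    exact Continuous.div (by fun_prop) (by fun_prop) fun t => (hn2 t).ne'
  have hint := hcont.intervalIntegrable (μ := volume) A B
  refine ⟨hint, ?_⟩
  have hAB : A ≤ B := by linarith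
  -- pointwise lower bound
  have hpt : ∀ t : ℝ, 2 * a * b / ((a + b) ^ 2 + (t - ρ.im) ^ 2) ≤
      Real.log (‖(1 / 2 + a + t * I - (1 - starRingEnd ℂ ρ) : ℂ)‖ / ‖(1 / 2 + a + t * I - ρ : ℂ)‖) := by
    intro t
    have h1 : (0:ℝ) < (a + b) ^ 2 + (t - ρ.im) ^ 2 := by positivity
    have h2 : (0:ℝ) < (a - b) ^ 2 + (t - ρ.im) ^ 2 := by positivity
    have h3 := log_ratio h1 h2
    have h4 : Real.log (‖(1 / 2 + a + t * I - (1 - starRingEnd ℂ ρ) : ℂ)‖ /
        ‖(1 / 2 + a + t * I - ρ : ℂ)‖) =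
        1 / 2 * Real.log (((a + b) ^ 2 + (t - ρ.im) ^ 2) / ((a - b) ^ 2 + (t - ρ.im) ^ 2)) := by
      rw [← normsq_form, ← normsq_form, ← e1, ← e2, ← div_pow, Real.log_pow]
      push_cast
      ring
    rw [h4]
    have h5 : ((a + b) ^ 2 + (t - ρ.im) ^ 2 - ((a - b) ^ 2 + (t - ρ.im) ^ 2)) /
        ((a + b) ^ 2 + (t - ρ.im) ^ 2) = 2 * (2 * a * b / ((a + b) ^ 2 + (t - ρ.im) ^ 2)) := by
      field_simp
      ring
    rw [h5] at h3
    linarith
  have hc2 : Continuous (fun t : ℝ => 2 * a * b / ((a + b) ^ 2 + (t - ρ.im) ^ 2)) := by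
    refine Continuous.div (by fun_prop) (by fun_prop) fun t => ?_
    positivity
  have h6 : ∫ t in A..B, 2 * a * b / ((a + b) ^ 2 + (t - ρ.im) ^ 2) =
      2 * a * b / (a + b) * (Real.arctan ((B - ρ.im) / (a + b)) -
        Real.arctan ((A - ρ.im) / (a + b))) := by
    have hd : ∀ t ∈ Set.uIcc A B, HasDerivAt
        (fun t => 2 * a * b / (a + b) * Real.arctan ((t - ρ.im) / (a + b)))
        (2 * a * b / ((a + b) ^ 2 + (t - ρ.im) ^ 2)) t := by
      intro t _
      have h7 : HasDerivAt (fun t : ℝ => (t - ρ.im) / (a + b)) (1 / (a + b)) t :=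
        ((hasDerivAt_id t).sub_const ρ.im).div_const (a + b)
      have h8 := (h7.arctan).const_mul (2 * a * b / (a + b))
      have h10 : 2 * a * b / ((a + b) ^ 2 + (t - ρ.im) ^ 2) = 2 * a * b / (a + b) *
          (1 / (1 + ((t - ρ.im) / (a + b)) ^ 2) * (1 / (a + b))) := by
        have : a + b ≠ 0 := by positivity
        have h9 : (a + b) ^ 2 + (t - ρ.im) ^ 2 ≠ 0 := by positivity
        have h11 : 1 + ((t - ρ.im) / (a + b)) ^ 2 = ((a + b) ^ 2 + (t - ρ.im) ^ 2) / (a + b) ^ 2 := by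
          field_simp
        rw [h11]
        field_simp
      rw [h10]
      exact h8
    rw [intervalIntegral.integral_eq_sub_of_hasDerivAt hd (hc2.intervalIntegrable _ _)]
    ring
  have h7 : ∫ t in A..B, 2 * a * b / ((a + b) ^ 2 + (t - ρ.im) ^ 2) ≤
      ∫ t in A..B, Real.log (‖(1 / 2 + a + t * I - (1 - starRingEnd ℂ ρ) : ℂ)‖ /
        ‖(1 / 2 + a + t * I - ρ : ℂ)‖) :=
    intervalIntegral.integral_mono_on hAB (hc2.intervalIntegrable _ _) hint fun t _ => hpt t
  rw [h6] at h7
  refine le_trans ?_ h7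
  have hq : Real.arctan (H / (a + 1 / 2)) ≤ Real.arctan (H / (a + b)) := by
    refine Real.arctan_strictMono.monotone ?_
    exact div_le_div_of_nonneg_left hH.le (by positivity) (by linarith)
  have hq1 : Real.arctan (H / (a + b)) ≤ Real.arctan ((B - ρ.im) / (a + b)) := by
    refine Real.arctan_strictMono.monotone ?_
    exact div_le_div_of_nonneg_right (by linarith) (by positivity)
  have hq2 : Real.arctan ((A - ρ.im) / (a + b)) ≤ -Real.arctan (H / (a + b)) := by
    rw [← Real.arctan_neg, ← neg_div]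
    refine Real.arctan_strictMono.monotone ?_
    exact div_le_div_of_nonneg_right (by linarith) (by positivity)
  have hq3 : 2 * (Real.pi / 2 - κ * (a + 1 / 2) / (4 * a)) ≤
      Real.arctan ((B - ρ.im) / (a + b)) - Real.arctan ((A - ρ.im) / (a + b)) := by linarith
  have hq4 : 0 ≤ Real.arctan ((B - ρ.im) / (a + b)) - Real.arctan ((A - ρ.im) / (a + b)) := by
    have : 0 ≤ Real.arctan (H / (a + b)) := Real.arctan_nonneg.2 (by positivity)
    linarith
  have hq5 : 2 * a * b / (a + 1 / 2) * (Real.arctan ((B - ρ.im) / (a + b)) -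
      Real.arctan ((A - ρ.im) / (a + b))) ≤ 2 * a * b / (a + b) *
      (Real.arctan ((B - ρ.im) / (a + b)) - Real.arctan ((A - ρ.im) / (a + b))) := by
    refine mul_le_mul_of_nonneg_right ?_ hq4
    exact div_le_div_of_nonneg_left (by positivity) (by positivity) (by linarith)
  refine le_trans ?_ hq5
  have hq6 : 2 * a * b / (a + 1 / 2) * (2 * (Real.pi / 2 - κ * (a + 1 / 2) / (4 * a))) ≤
      2 * a * b / (a + 1 / 2) * (Real.arctan ((B - ρ.im) / (a + b)) -
      Real.arctan ((A - ρ.im) / (a + b))) :=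
    mul_le_mul_of_nonneg_left hq3 (by positivity)
  refine le_trans (le_of_eq ?_) hq6
  field_simp
  ring

end Pool.Agent.Helper83.PM
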