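import Pool.Agent.Helper75.PM.StmL

/-! Project PM: package ME. -/

set_option autoImplicit false

open Complex Filter Topology MeasureTheory

namespace Pool.Agent.Helper83.PM

open Pool.Agent.Helper75.PM
open Pool.Agent.Helper85.LG (Lm G xi)

/-- the zeros off the line, to the right, with bounded ordinate -/
def ZZ (T : ℝ) : Set ℂ :=
  {ρ | riemannZeta ρ = 0 ∧ 1 / 2 < ρ.re ∧ ρ.re < 1 ∧ T - 1 ≤ ρ.im ∧ ρ.im ≤ 2 * T + 1}

lemma ZZ_fin (T : ℝ) : (ZZ T).Finite := by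
  by_contra hinf
  have hinf : (ZZ T).Infinite := hinf
  have hK : IsCompact (Set.Icc (1 / 2 : ℝ) 1 ×ℂ Set.Icc (T - 1) (2 * T + 1)) :=
    isCompact_Icc.reProdIm isCompact_Icc
  have hsub : ZZ T ⊆ Set.Icc (1 / 2 : ℝ) 1 ×ℂ Set.Icc (T - 1) (2 * T + 1) := by
    intro ρ hρ
    obtain ⟨_, h1, h2, h3, h4⟩ := hρ
    exact ⟨⟨h1.le, h2.le⟩, ⟨h3, h4⟩⟩
  obtain ⟨x, -, hx⟩ := hinf.exists_accPt_of_subset_isCompact hK hsub
  rw [accPt_iff_frequently_nhdsNE] at hx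
  have h1 : ∃ᶠ y in 𝓝[≠] x, riemannZeta₁ y = 0 := by
    refine hx.mono fun y hy => ?_
    obtain ⟨h0, _, h2, _⟩ := hy
    have hy1 : y ≠ 1 := by
      rintro rfl
      simp at h2
    have h3 := riemannZeta_eq_inv_sub_mul hy1
    rw [h0] at h3
    have h4 : (y - 1)⁻¹ ≠ 0 := inv_ne_zero (sub_ne_zero.2 hy1)
    exact (mul_eq_zero.1 h3.symm).resolve_left h4
  have h2 : AnalyticOnNhd ℂ riemannZeta₁ Set.univ :=
    differentiable_riemannZeta₁.differentiableOn.analyticOnNhd isOpen_univ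
  have h3 := h2.eqOn_zero_of_preconnected_of_frequently_eq_zero isPreconnected_univ
    (Set.mem_univ x) h1
  have h4 := h3 (Set.mem_univ (1 : ℂ))
  rw [riemannZeta₁_one] at h4
  exact one_ne_zero h4

/-- ME -/
theorem meas (hcone : S_cone) : S_meas := by
  intro T hT
  classical
  refine ⟨(ZZ_fin T).toFinset, fun ρ hρ => ?_, ?_⟩
  · obtain ⟨h0, h1, h2, h3, h4⟩ := (Set.Finite.mem_toFinset _).1 hρ
    exact ⟨h0, h1, h2, h3, h4⟩
  · have hsub : {x : ℝ | T ≤ x ∧ x ≤ 2 * T ∧ ∃ m : ℕ, Lm x m < 0} ⊆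
        ⋃ ρ ∈ (ZZ_fin T).toFinset, Set.Ioo (ρ.im - (ρ.re - 1 / 2)) (ρ.im + (ρ.re - 1 / 2)) := by
      rintro x ⟨hx1, hx2, m, hm⟩
      by_contra hcon
      have h5 : ∀ ρ : ℂ, riemannZeta ρ = 0 → 1 / 2 < ρ.re → ρ.re < 1 →
          |ρ.re - 1 / 2| ≤ |ρ.im - x| := by
        intro ρ h0 h1 h2
        by_contra h6
        have h6 : |ρ.im - x| < |ρ.re - 1 / 2| := lt_of_not_ge h6
        rw [abs_of_pos (by linarith : (0:ℝ) < ρ.re - 1 / 2), abs_lt] at h6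
        apply hcon
        simp only [Set.mem_iUnion]
        refine ⟨ρ, (Set.Finite.mem_toFinset _).2 ⟨h0, h1, h2, ?_, ?_⟩, ?_, ?_⟩ <;> linarith [h6.1, h6.2]
      exact absurd (hcone x h5 m) (not_le.2 hm)
    refine (measure_mono hsub).trans ((measure_biUnion_finset_le _ _).trans (le_of_eq ?_))
    rw [ENNReal.ofReal_sum_of_nonneg]
    · refine Finset.sum_congr rfl fun ρ _ => ?_
      rw [Real.volume_Ioo]
      congr 1
      ring
    · intro ρ hρ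
      obtain ⟨_, h1, _⟩ := (Set.Finite.mem_toFinset _).1 hρ
      linarith

end Pool.Agent.Helper83.PM
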